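import Pool.Agent.MVK.Stmts

/-!
# Squad MVK (MP_23468a_al), row KGP: a letter goes around a short chain in any context
-/

set_option autoImplicit false

namespace Pool.Agent.MVK.H45

open Pool.Agent.Helper14_MV Pool.Agent.Helper2_MV Pool.Agent.MVD Pool.Agent.MVK

theorem range_flatMap (l : List ℕ) : ∀ h : ℕ → List ℕ, (∀ e (he : e < l.length), h e = [l[e]]) →
    (List.range l.length).flatMap h = l := by
  induction l with
  | nil => intro h _; rfl
  | cons a l ih =>
    intro h hh
    rw [List.length_cons, List.range_succ_eq_map, List.flatMap_cons, List.flatMap_map,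
      hh 0 (by simp), ih (fun e => h (e + 1)) ?_]
    · rfl
    · intro e he
      have := hh (e + 1) (by simpa using he)
      rw [this]
      simp

/-- Row KGP. -/
theorem kgp (inw : InwStmt) (abs : AbsStmt) : KgpStmt := by
  intro β hβ m hm p u q y hu hyu hlen hc
  obtain ⟨P, Q, g, M, hP, hL, h0, h1⟩ := inw p q u y hu hc
  obtain ⟨a1, a2⟩ := abs β
  have hk := hm u.length hlen P Q hP
  set L : List ℕ := 0 :: (zs (List.range u.length) ++ [0]) with hLd
  have hLg : L.flatMap g = y :: (u ++ [y]) := by
    rw [hLd, List.flatMap_cons, List.flatMap_append, h0, zs, List.flatMap_map,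
      range_flatMap u (fun e => g (3 * e + 1)) h1, List.flatMap_cons, h0, List.flatMap_nil]
    rfl
  have hw : p ++ y :: (u ++ y :: q) = M ++ (bw P Q u.length).flatMap g := by
    have h2 := hL L
    rw [hLg] at h2
    rw [bw, ← hLd, ← h2]
    simp
  have hcnt : 2 ≤ (bw P Q u.length).count 0 := by
    have h3 : bw P Q u.length = (P.map (fun e => e + 1)).flatMap
        (fun r => (if r = 0 then L else [3 * (r - 1) + 1]) ++ [3 * r + 2]) ++
        ((L ++ [2]) ++ (Q.map (fun e => e + 1)).flatMap
          (fun r => (if r = 0 then L else [3 * (r - 1) + 1]) ++ [3 * r + 2])) := by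
      rw [bw, Wm, Bw, List.flatMap_append, List.flatMap_cons]
      rfl
    have h4 : 2 ≤ L.count 0 := by
      rw [hLd, List.count_cons_self, List.count_append]
      have : List.count 0 [0] = 1 := rfl
      omega
    rw [h3, List.count_append, List.count_append, List.count_append]
    omega
  obtain ⟨c, hcc⟩ : ∃ c, (bw P Q u.length).count 0 = c + 2 := ⟨_, (Nat.sub_add_cancel hcnt).symm⟩
  unfold Kd at hk
  rw [hcc] at hk
  have h5 := (RR.refl (β := β) M).append (hk.sub g)
  rw [← hw] at h5
  have h6 : M ++ ((bw P Q u.length).filter (fun c => decide (c ≠ 0)) ++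
      List.replicate (c + 2) 0).flatMap g =
      (M ++ ((bw P Q u.length).filter (fun c => decide (c ≠ 0))).flatMap g) ++
        y :: y :: (List.replicate c 0).flatMap g := by
    rw [List.flatMap_append, List.replicate_succ, List.replicate_succ, List.flatMap_cons,
      List.flatMap_cons, h0]
    simp
  rw [h6] at h5
  exact a2 y _ _ h5 (a1 hβ _ _ y)

end Pool.Agent.MVK.H45
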